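import Pool.Agent.Helper97.BE.NoeCert
import Pool.Agent.Helper37.BT.Basic

/-!
# Project TQ: NOE for special relations with lower terms
-/

universe u v w

namespace Pool.Agent.BE

open MvPolynomial

variable {A : Type u} [CommRing A] {σ : Type v} {U : Type w} [Fintype U] {i0 i1 : σ}
  {rel rel' : U → MvPolynomial σ A} {e : U → ℕ} {D : ℕ}

/-- change of the relations by lower terms and by multiples of `X i0`, `X i1` -/
lemma Jd.change (h : ∀ u, ∃ L B B' : MvPolynomial σ A, DL L 1 (e u) ∧ DL B 1 (e u) ∧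
      DL B' 1 (e u) ∧ rel' u = rel u + (L + X i0 * B + X i1 * B'))
    {P : MvPolynomial σ A} (hP : Jd i0 i1 rel' e D P) : Jd i0 i1 rel e D P := by
  classical
  obtain ⟨g, g2, b, h1, h2, h3, rfl⟩ := hP
  refine Jd.add (Jd.add (Jd.sum _ fun j _ => Jd.mulX (h1 j) j) (Jd.low h2))
    (Jd.sum _ fun u _ => ?_)
  obtain ⟨L, B, B', hL, hB, hB', hu⟩ := h u
  rw [hu]
  have h4 : b u * (rel u + (L + X i0 * B + X i1 * B')) =
      b u * rel u + (b u * L + (![(X i0 : MvPolynomial σ A), X i1] 0 * (b u * B) +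
        ![(X i0 : MvPolynomial σ A), X i1] 1 * (b u * B'))) := by
    simp only [Matrix.cons_val_zero, Matrix.cons_val_one]
    ring
  rw [h4]
  have hm : ∀ {Q : MvPolynomial σ A}, DL Q 1 (e u) → DL (b u * Q) 1 D := by
    intro Q hQ
    exact ((h3 u).mul hQ).mono (by omega)
  exact Jd.add (Jd.mulRel (h3 u)) (Jd.add (Jd.low (hm hL)) (Jd.add (Jd.mulX (hm hB) 0)
    (Jd.mulX (hm hB') 1)))

end Pool.Agent.BE

namespace Pool.Agent.BT

open MvPolynomial Pool.Agent.BE

/-- Graded Nakayama, version of `noe_of_cert` for special relations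
`X (2 + s) ^ (ds s) + (lower terms) + X 0 * B + X 1 * B'`. -/
theorem noe_of_cert_gen {K : Type u} [Field K] {N t : ℕ} (ht : t ≤ N) {ds : Fin t → ℕ}
    {U : Type} [Fintype U] {e : U → ℕ} {h : ∀ u, MonV (N + 2) (e u) → K}
    {c : ℕ} (hc : 1 ≤ c)
    (hcert : ∀ q : MonV (N + 2) c, ∃ (A : MonV (N + 2) (c - 1) → K)
      (B : Fin (t + 2) → MonV (N + 2) (c - 1) → K) (b : U → MvPolynomial (Fin (N + 2)) K),
      (∀ u, b u ≠ 0 → (b u).totalDegree + e u ≤ c) ∧
      pol A + ∑ s, pol (B s) * X (Fin.castLE (by omega) s) + ∑ u, b u * pol (h u) =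
        monomial q.1 1)
    {g0 : ∀ s, MonV (N + 2) (ds s) → K}
    (hg0 : ∀ s, ∃ L B B' : MvPolynomial (Fin (N + 2)) K, DL L 1 (ds s) ∧ DL B 1 (ds s) ∧
      DL B' 1 (ds s) ∧ X (Fin.natAdd 2 (Fin.castLE ht s) |>.cast (by omega)) ^ ds s =
        pol (g0 s) + (L + X 0 * B + X 1 * B')) :
    ∃ c', Noe (relS g0 h) c' := by
  classical
  set nv : Fin t → Fin (N + 2) := fun s => (Fin.natAdd 2 (Fin.castLE ht s)).cast (by omega) with hnv
  have hnvv : ∀ s, (nv s : ℕ) = 2 + s := fun s => rfl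
  obtain ⟨g0', hg0'⟩ : ∃ g0' : ∀ s, MonV (N + 2) (ds s) → K, ∀ s, pol (g0' s) = X (nv s) ^ ds s :=
    ⟨fun s q => coeff q.1 (X (nv s) ^ ds s), fun s => pol_coeff (totalDegree_X_pow _ _).le⟩
  have hbig := Jd.big (A := K) (σ := Fin (N + 2)) (U := Fin t ⊕ U) (i0 := 0) (i1 := 1)
    (rel := fun u => pol (relS g0' h u)) (e := Sum.elim ds e) (D := c + ∑ s, ds s) nv
    (fun s s' hs => by
      have h1 := congrArg Fin.val hs
      rw [hnvv, hnvv] at h1
      exact Fin.ext (by omega))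
    (ds := ds) (fun s => ⟨Sum.inl s, hg0' s, rfl⟩) (by
      intro q hq
      obtain ⟨P, B, b, hb, hid⟩ := hcert ⟨q, hq.le⟩
      refine ⟨pol P, fun j => pol (B (Fin.castLE (by omega) j)),
        fun s => pol (B ((Fin.natAdd 2 s).cast (by omega))), Sum.elim (fun _ => 0) b, ?_, ?_, ?_, ?_, ?_⟩
      · exact (DL_pol P).mono (by omega)
      · intro j
        exact (DL_pol _).mono (by omega)
      · intro s
        exact (DL_pol _).mono (by omega)
      · rintro (s | u)
        · exact DL.zero _ _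
        · exact DL_iff.2 (hb u)
      · rw [← hid]
        rw [Fintype.sum_sum_type]
        simp only [Sum.elim_inl, Sum.elim_inr, zero_mul, Finset.sum_const_zero, zero_add]
        have h1 : ∑ s : Fin (t + 2), pol (B s) * (X (Fin.castLE (by omega) s) : MvPolynomial (Fin (N + 2)) K) =
            ∑ j : Fin 2, pol (B (Fin.castLE (by omega) j)) * X (![0, 1] j) +
              ∑ s : Fin t, pol (B ((Fin.natAdd 2 s).cast (by omega))) * X (nv s) := by
          rw [← (finCongr (by omega : 2 + t = t + 2)).sum_comp, Fin.sum_univ_add]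
          congr 1
        have e1 : ∑ j : Fin 2, ![(X 0 : MvPolynomial (Fin (N + 2)) K), X 1] j *
            pol (B (Fin.castLE (by omega) j)) =
            ∑ j : Fin 2, pol (B (Fin.castLE (by omega) j)) * X (![0, 1] j) := by
          rw [Fin.sum_univ_two, Fin.sum_univ_two]
          simp only [Matrix.cons_val_zero, Matrix.cons_val_one]
          rw [mul_comm (X 0), mul_comm (X 1)]
        have e2 : ∑ s : Fin t, (X (nv s) : MvPolynomial (Fin (N + 2)) K) *
            pol (B ((Fin.natAdd 2 s).cast (by omega))) =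
            ∑ s : Fin t, pol (B ((Fin.natAdd 2 s).cast (by omega))) * X (nv s) :=
          Finset.sum_congr rfl fun s _ => mul_comm _ _
        rw [h1, e1, e2, ← add_assoc]
        rfl)
    le_rfl
  have hch : ∀ P, Jd 0 1 (fun u => pol (relS g0' h u)) (Sum.elim ds e) (c + ∑ s, ds s) P →
      Jd 0 1 (fun u => pol (relS g0 h u)) (Sum.elim ds e) (c + ∑ s, ds s) P := by
    intro P hP
    refine Jd.change ?_ hP
    rintro (s | u)
    · obtain ⟨L, B, B', hL, hB, hB', hs⟩ := hg0 s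
      exact ⟨L, B, B', hL, hB, hB', (hg0' s).trans hs⟩
    · exact ⟨0, 0, 0, DL.zero _ _, DL.zero _ _, DL.zero _ _, by
        rw [mul_zero, mul_zero, add_zero, add_zero, add_zero]
        rfl⟩
  refine ⟨_, noe_of_rep (noe (A := K) (σ := Fin (N + 2)) (c := fun _ => c + ∑ s, ds s) ?_)⟩
  intro v _ _
  have h1 := hch _ (hbig (Finsupp.single v (c + ∑ s, ds s)) (Finsupp.degree_single _ _))
  rw [← X_pow_eq_monomial] at h1
  obtain ⟨g, g2, b, h2, h3, h4, h5⟩ := h1
  exact ⟨g, g2, b, by omega, h2, h3, h4, h5⟩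

end Pool.Agent.BT
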