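import Pool.Agent.Helper37.BT.Geo1
import Pool.Agent.Helper10.TQ.Block2
import Pool.Agent.Helper13.TQ.CertMap
import Pool.Agent.Helper65.TQ.Noe1
import Pool.Agent.Helper77.TQ.Mono

/-!
# Project TQ: GEO over the explicit field for two quadrics
-/

universe u v w

namespace Pool.Agent.TQ

open MvPolynomial Pool.Agent.BT

/-- a property of all four indices -/
lemma forall_four {q : Fin 4 → Prop} (h0 : q 0) (h1 : q 1) (h2 : q 2) (h3 : q 3) : ∀ i, q i := by
  intro i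
  fin_cases i
  · exact h0
  · exact h1
  · exact h2
  · exact h3

section aux

variable {P : Type u} {R : Type v} {S₁ : Type w} [CommRing P] [CommRing R] [CommRing S₁] (ψ : P →+* S₁)
  (φ : R →+* S₁)

private lemma g1q_sum {ι : Type} [Fintype ι] {x₁ c₁ : ι → R} {x₂ c₂ : ι → P}
    (hx : ∀ e, φ (x₁ e) = ψ (x₂ e)) (hc : ∀ e, φ (c₁ e) = ψ (c₂ e)) :
    φ (∑ e, x₁ e * c₁ e) = ψ (∑ e, x₂ e * c₂ e) := by
  rw [map_sum, map_sum]
  refine Finset.sum_congr rfl fun e _ => ?_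
  rw [map_mul, map_mul, hx, hc]

variable {n d a b a' b' a₂ b₂ : ℕ} {U : Type} [Fintype U] {e : U → ℕ} {G : Fin 2 → MonV n a → P}
  {W : MonV n b → P} {f : MonV n d → P} {rel : ∀ u, MonV n (e u) → P} {H : MonV n a' → P}
  {H' : U → MonV n b' → P} {G₀ G₁ : MonV n a → R} {W₁ : MonV n b → R} {f₁ : MonV n d → R}
  {rel₁ : ∀ u, MonV n (e u) → R} {HC : MonV n a' → R} {HC' : U → MonV n b' → R}
  {HM : MonV n a₂ → R} {HM' : U → MonV n b₂ → R}

include ψ φ

private lemma g1q_comb (hφ : Function.Injective φ) (hf : ∀ q, φ (f₁ q) = ψ (f q))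
    (hrel : ∀ u q, φ (rel₁ u q) = ψ (rel u q)) (hH : ∀ q, φ (HC q) = ψ (H q))
    (hH' : ∀ u q, φ (HC' u q) = ψ (H' u q)) (hHM : pol HM = pol HC)
    (hHM' : ∀ u, pol (HM' u) = pol (HC' u)) :
    map φ (comb f₁ rel₁ HM HM') = map ψ (comb f rel H H') := by
  have h1 : comb f₁ rel₁ HM HM' = comb f₁ rel₁ HC HC' := by
    unfold comb
    rw [hHM]
    simp only [hHM']
  rw [h1, map_comb, map_comb]
  simp only [hf, hrel, hH, hH']

private lemma g1q_id1 (hφ : Function.Injective φ) {t : P} {t₁ : R}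
    (hGW : ∏ i, pol (G i) = C t * pol W ^ 2 + comb f rel H H') (h0 : ∀ q, φ (G₀ q) = ψ (G 0 q))
    (h1 : ∀ q, φ (G₁ q) = ψ (G 1 q)) (hW : ∀ q, φ (W₁ q) = ψ (W q)) (ht : φ t₁ = ψ t)
    (hf : ∀ q, φ (f₁ q) = ψ (f q)) (hrel : ∀ u q, φ (rel₁ u q) = ψ (rel u q))
    (hH : ∀ q, φ (HC q) = ψ (H q)) (hH' : ∀ u q, φ (HC' u q) = ψ (H' u q))
    (hHM : pol HM = pol HC) (hHM' : ∀ u, pol (HM' u) = pol (HC' u)) :
    pol G₀ * pol G₁ = C t₁ * pol W₁ ^ 2 + comb f₁ rel₁ HM HM' := by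
  apply MvPolynomial.map_injective φ hφ
  rw [Fin.prod_univ_two] at hGW
  have h2 := congrArg (MvPolynomial.map ψ) hGW
  rw [map_mul, map_add, map_mul, map_pow, map_C, map_pol, map_pol, map_pol] at h2 ⊢
  rw [g1q_comb ψ φ hφ hf hrel hH hH' hHM hHM', ht, funext h0, funext h1, funext hW]
  exact h2

private lemma g1q_id2 (hφ : Function.Injective φ)
    (hGW : pol (G 0) * pol (G 1) = pol W ^ 2 + comb f rel H H') (h0 : ∀ q, φ (G₀ q) = ψ (G 0 q))
    (h1 : ∀ q, φ (G₁ q) = ψ (G 1 q)) (hW : ∀ q, φ (W₁ q) = ψ (W q))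
    (hf : ∀ q, φ (f₁ q) = ψ (f q)) (hrel : ∀ u q, φ (rel₁ u q) = ψ (rel u q))
    (hH : ∀ q, φ (HC q) = ψ (H q)) (hH' : ∀ u q, φ (HC' u q) = ψ (H' u q))
    (hHM : pol HM = pol HC) (hHM' : ∀ u, pol (HM' u) = pol (HC' u)) :
    pol G₀ * pol G₁ = pol W₁ ^ 2 + comb f₁ rel₁ HM HM' := by
  apply MvPolynomial.map_injective φ hφ
  have h2 := congrArg (MvPolynomial.map ψ) hGW
  rw [map_mul, map_add, map_pow, map_pol, map_pol, map_pol] at h2 ⊢
  rw [g1q_comb ψ φ hφ hf hrel hH hH' hHM hHM', funext h0, funext h1, funext hW]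
  exact h2

end aux

private theorem g1q_alg {A : Type u} {S₁ : Type v} [Field A] [Field S₁] (θ : A →+* S₁) (K₀ : Subfield S₁)
    (γ : Fin 2 → A) (h0 : ∀ j : Fin 2, θ ((∏ i, (Polynomial.X - Polynomial.C (γ i))).coeff j) ∈ K₀)
    (i : Fin 2) : IsAlgebraic K₀ (θ (γ i)) := by
  set P : Polynomial S₁ := ∏ i, (Polynomial.X - Polynomial.C (θ (γ i))) with hP
  have hPmap : P = (∏ i, (Polynomial.X - Polynomial.C (γ i))).map θ := by
    rw [Polynomial.map_prod]
    exact Finset.prod_congr rfl fun i _ => by simp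
  have hmon1 : (∏ i, (Polynomial.X - Polynomial.C (γ i))).Monic :=
    Polynomial.monic_prod_of_monic _ _ fun i _ => Polynomial.monic_X_sub_C _
  have hdeg1 : (∏ i, (Polynomial.X - Polynomial.C (γ i))).natDegree = 2 := by
    rw [Polynomial.natDegree_prod_of_monic _ _ fun i _ => Polynomial.monic_X_sub_C _]
    simp
  have hlift : P ∈ Polynomial.lifts (algebraMap K₀ S₁) := by
    rw [Polynomial.lifts_iff_coeff_lifts]
    intro n
    rw [hPmap, Polynomial.coeff_map]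
    rcases lt_trichotomy n 2 with h | h | h
    · exact ⟨⟨_, h0 ⟨n, h⟩⟩, rfl⟩
    · have h1 : (∏ i, (Polynomial.X - Polynomial.C (γ i))).coeff n = 1 := by
        have h2 := hmon1.coeff_natDegree
        rw [hdeg1] at h2
        rw [h]
        exact h2
      rw [h1, map_one]
      exact ⟨1, map_one _⟩
    · rw [Polynomial.coeff_eq_zero_of_natDegree_lt (by omega), map_zero]
      exact ⟨0, map_zero _⟩
  obtain ⟨P', hP'⟩ := (Polynomial.mem_lifts P).1 hlift
  refine ⟨P', ?_, ?_⟩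
  · rintro rfl
    rw [Polynomial.map_zero] at hP'
    have h1 : P.Monic := Polynomial.monic_prod_of_monic _ _ fun i _ => Polynomial.monic_X_sub_C _
    exact h1.ne_zero hP'.symm
  · rw [Polynomial.aeval_def, ← Polynomial.eval_map, hP', hP, Polynomial.eval_prod]
    exact Finset.prod_eq_zero (Finset.mem_univ i) (by simp)

theorem geo1Q {κ E : Type u} [Field κ] [IsAlgClosed κ] [CharZero κ] [Field E] [Algebra κ E]
    (φE : E →+* HahnSeries ℤ κ) (hφc : ∀ c : κ, φE (algebraMap κ E c) = HahnSeries.C c) {T : E}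
    (hφT : φE T = HahnSeries.single 1 1) {N m t : ℕ} (ht : t ≤ N) {ds : Fin t → ℕ} {s₀ : Fin t}
    (hs₀ : ds s₀ = 2) {U : Type} [Fintype U] {e : U → ℕ}
    {w : Fin (m + 2) → E} (hw0 : w 0 = 1) (hw1 : w 1 = T)
    {h : ∀ u, MonV (N + 2) (e u) → E} {c : ℕ} (hc : 1 ≤ c) (hcert : CertV ht h c) :
    Geo1Q κ E T N m ds w h := by
  classical
  set g0 : ∀ s, MonV (N + 2) (ds s) → κ := fun s q => ((g0Q ht ds s₀ s q : ℤ) : κ) with hg0
  have hp : (2 : ℕ).Prime := Nat.prime_two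
  obtain ⟨κ₁, iF1, iA1, Γ, x, ξ, hcl, hΓ, hξa, hξb, hξ, hperm⟩ :=
    PC.exists_K1 κ (d := 2) (idx0 N m ds) idx0_injective (spec0 κ g0)
  obtain ⟨A, S₁, iFA, iFS, cA, lA, ψ, τA, τS, hScl, hψ, hlc, hli, hτc, hτl, ⟨α₀, hα₀, hτα⟩, hτS,
    ⟨Q, hQ, hQalg⟩, hρ⟩ := PC.exists_hahn κ κ₁ hp
  have hd0 : 0 < 2 := by omega
  -- characteristic
  have hκ₁0 : CharZero κ₁ := charZero_of_injective_algebraMap (algebraMap κ κ₁).injective
  have hA0 : CharZero A := charZero_of_injective_ringHom cA.injective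
  -- the series
  set φA : E →+* A := lA.comp φE with hφA
  set s : IxV (N + 2) 2 ds × Fin (m + 2) → A := fun i => cA (ser0 g0 ξ i) with hs
  set t' : IxV (N + 2) 2 ds × Fin (m + 2) → A := fun i => cA (ser1 x i) with ht'
  set xs : IxV (N + 2) 2 ds × Fin (m + 2) → PowerSeries A := fun i =>
    PowerSeries.C (s i) + PowerSeries.X * PowerSeries.C (t' i) with hxs
  set g₁ : MvPolynomial (IxV (N + 2) 2 ds × Fin (m + 2)) E →+* PowerSeries A :=
    eval₂Hom ((PowerSeries.C).comp φA) xs with hg₁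
  have hg₁inj : Function.Injective g₁ := by
    refine PC.inj_of_spec φA s t' ?_
    have h1 : (fun i => s i + t' i) = fun i => cA (ξ i) := by
      funext i
      rw [hs, ht']
      simp only
      rw [← map_add, ser_add hξb]
    rw [h1]
    exact PC.sum_ne_zero_of_indep hli φE hξ
  have hg₁C : ∀ b, g₁ (C b) = PowerSeries.C (φA b) := fun b => by
    rw [hg₁, coe_eval₂Hom, eval₂_C]
    rfl
  have hg₁X : ∀ i, g₁ (X i) = xs i := fun i => by
    rw [hg₁, coe_eval₂Hom, eval₂_X]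
  have hginj : Function.Injective (ψ.comp g₁) := hψ.comp hg₁inj
  let iAlg : Algebra (FFV E (N + 2) 2 m ds) S₁ := (IsFractionRing.lift hginj).toAlgebra
  have hmap : ∀ P : MvPolynomial (IxV (N + 2) 2 ds × Fin (m + 2)) E,
      algebraMap (FFV E (N + 2) 2 m ds) S₁ (algebraMap
        (MvPolynomial (IxV (N + 2) 2 ds × Fin (m + 2)) E) (FFV E (N + 2) 2 m ds) P) = ψ (g₁ P) :=
    fun P => IsFractionRing.lift_algebraMap hginj P
  have hmapC : ∀ b, algebraMap (FFV E (N + 2) 2 m ds) S₁ (cF (N + 2) 2 m ds b) =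
      ψ (PowerSeries.C (φA b)) := fun b => by
    rw [← hg₁C]
    exact hmap _
  have hmapX : ∀ i, algebraMap (FFV E (N + 2) 2 m ds) S₁ (xF i) = ψ (xs i) := fun i => by
    rw [← hg₁X]
    exact hmap _
  -- the generic curve
  set v : Fin (m + 2) → A := fun e => φA (w e) with hv
  have hv0 : v 0 = 1 := by
    rw [hv]
    simp only
    rw [hw0, map_one]
  set f : MonV (N + 2) 2 → PowerSeries A := fun q => ∑ e, xs (Sum.inl q, e) * PowerSeries.C (v e)
    with hf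
  set rel : ∀ u : Fin t ⊕ U, MonV (N + 2) (Sum.elim ds e u) → PowerSeries A :=
    relS (fun s q => ∑ e, xs (Sum.inr ⟨s, q⟩, e) * PowerSeries.C (v e))
      (fun u q => PowerSeries.C (φA (h u q))) with hrel
  have hfgen : ∀ q, algebraMap (FFV E (N + 2) 2 m ds) S₁ (fF w q) = ψ (f q) := by
    intro q
    change algebraMap (FFV E (N + 2) 2 m ds) S₁ (∑ e, xF (Sum.inl q, e) * cF _ 2 m ds (w e)) =
      ψ (∑ e, xs (Sum.inl q, e) * PowerSeries.C (v e))
    exact g1q_sum ψ (algebraMap (FFV E (N + 2) 2 m ds) S₁) (fun e => hmapX _) (fun e => hmapC _)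
  have hrelgen : ∀ u q, algebraMap (FFV E (N + 2) 2 m ds) S₁ (relF w h u q) = ψ (rel u q) := by
    rintro (s' | u) q
    · change algebraMap (FFV E (N + 2) 2 m ds) S₁
        (∑ e, xF (Sum.inr ⟨s', q⟩, e) * cF _ 2 m ds (w e)) =
          ψ (∑ e, xs (Sum.inr ⟨s', q⟩, e) * PowerSeries.C (v e))
      exact g1q_sum ψ (algebraMap (FFV E (N + 2) 2 m ds) S₁) (fun e => hmapX _) (fun e => hmapC _)
    · exact hmapC _
  set T' : A := lA (HahnSeries.single 1 1) with hT'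
  have hφT' : φA T = T' := by
    rw [hφA, RingHom.comp_apply, hφT]
  have hv1 : v 1 = T' := by
    rw [hv]
    simp only
    rw [hw1, hφT']
  have hT'0 : T' ≠ 0 := by
    rw [hT']
    intro h
    have h1 := (map_eq_zero lA).1 h
    exact one_ne_zero (HahnSeries.single_eq_zero_iff.1 h1)
  set γ : Fin 2 → A := fun i => cA (Γ i) with hγ
  have hγinj : Function.Injective γ := cA.injective.comp hΓ.injective
  have hγ1 : ∀ i j, γ i ≠ γ j + 1 := by
    intro i j h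
    have h1 : Γ i = Γ j + 1 := by
      apply cA.injective
      rw [map_add, map_one]
      exact h
    have h2 : (X i - X j - 1 : MvPolynomial (Fin 2) κ) = 0 := by
      apply hΓ
      rw [map_sub, map_sub, aeval_X, aeval_X, map_one, map_zero, h1]
      ring
    have h3 := congrArg (eval (fun _ => (0 : κ))) h2
    simp at h3
  have hxs0 : ∀ i, PowerSeries.constantCoeff (xs i) = s i := fun i => by
    rw [hxs]
    simp
  have hf0 : pol (fun q => PowerSeries.constantCoeff (f q)) = inc N (PC.f0 γ T') := by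
    have h1 : (fun q => PowerSeries.constantCoeff (f q)) =
        fun q : MonV (N + 2) 2 => coeff q.1 (inc N (PC.f0 γ T')) := by
      funext q
      have h2 := sum_ser0_main cA hd0 g0 hξa (v := v) hv0 q
      rw [hv1] at h2
      rw [← h2, hf, map_sum]
      refine Finset.sum_congr rfl fun e _ => ?_
      rw [map_mul, hxs0, PowerSeries.constantCoeff_C]
    rw [h1]
    exact pol_coeff (totalDegree_inc_f0_le N γ T')
  have hrel0 : (fun u q => PowerSeries.constantCoeff (rel u q)) =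
      relS (fun s q => ((g0Q ht ds s₀ s q : ℤ) : A)) (fun u q => φA (h u q)) := by
    funext u q
    rcases u with s' | u
    · change PowerSeries.constantCoeff (∑ e, xs (Sum.inr ⟨s', q⟩, e) * PowerSeries.C (v e)) =
        ((g0Q ht ds s₀ s' q : ℤ) : A)
      have h2 := sum_ser0_oth (d := 2) cA g0 (ξ := ξ) (v := v) hv0 s' q
      have h3 : ((g0Q ht ds s₀ s' q : ℤ) : A) = cA (algebraMap κ κ₁ (g0 s' q)) := by
        rw [hg0]
        simp only
        rw [map_intCast, map_intCast]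
      rw [h3, ← h2, map_sum]
      refine Finset.sum_congr rfl fun e _ => ?_
      rw [map_mul, hxs0, PowerSeries.constantCoeff_C]
    · change PowerSeries.constantCoeff (PowerSeries.C (φA (h u q))) = φA (h u q)
      rw [PowerSeries.constantCoeff_C]
  have hcert' : CertV ht (fun u q => φA (h u q)) c := CertV.map φA hcert
  obtain ⟨c₁, hNoe₁⟩ := noe1Q ht hs₀ hc hcert'
  have hNoe' : Noe (fun u q => PowerSeries.constantCoeff (rel u q)) c₁ := by
    rw [hrel0]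
    exact hNoe₁
  obtain ⟨c₂, hblock⟩ := exists_block2 ht hs₀ (T := T') (γ := γ) hc hcert' f rel hf0
    (fun u q => congrFun (congrFun hrel0 u) q)
  -- the degree
  obtain ⟨mm, hmm⟩ : ∃ mm, mm = 2 + c₁ + c₂ := ⟨_, rfl⟩
  obtain ⟨G, W, H, H', hGW, hG0, hequi, halg⟩ := exists_sol (m := mm) (r := 1) (d := 2) hp rfl hd0
    (by omega) hT'0 hγinj hγ1 f rel hf0 hNoe'
  obtain ⟨G₂, W₂, H₂, H₂', hGW₂, hequi₂, halg₂, hcert₂⟩ := hblock mm (by omega)
  -- algebraicity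
  set K₀ : Subfield S₁ := (algebraMap (FFV E (N + 2) 2 m ds) S₁).fieldRange with hK₀
  have hmem : ∀ P, ψ (g₁ P) ∈ K₀ := fun P => ⟨_, hmap P⟩
  have hTmem : ψ (PowerSeries.C T') ∈ K₀ := by
    rw [← hφT', ← hg₁C]
    exact hmem _
  have hfmem : ∀ q, ψ (f q) ∈ K₀ := fun q => ⟨_, hfgen q⟩
  have hrelmem : ∀ u q, ψ (rel u q) ∈ K₀ := fun u q => ⟨_, hrelgen u q⟩
  have hrelmem0 : ∀ u q, ψ (PowerSeries.C (PowerSeries.constantCoeff (rel u q))) ∈ K₀ := by
    intro u q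
    have h1 := congrFun (congrFun hrel0 u) q
    rw [h1]
    rcases u with s' | u
    · change ψ (PowerSeries.C ((g0Q ht ds s₀ s' q : ℤ) : A)) ∈ K₀
      rw [map_intCast, map_intCast]
      exact intCast_mem _ _
    · exact ⟨_, hmapC _⟩
  have hxsj : ∀ j : Fin 2, xs (idx0 N m ds j) =
      PowerSeries.C ((∏ i, (Polynomial.X - Polynomial.C (γ i))).coeff (j : ℕ)) := by
    intro j
    have h1 : ser0 g0 ξ (idx0 N m ds j) = ξ (idx0 N m ds j) := if_pos ⟨j, rfl⟩
    have h2 : ser1 x (idx0 N m ds j) = 0 := if_pos ⟨j, rfl⟩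
    have h3 : (∏ i, (Polynomial.X - Polynomial.C (γ i))) =
        (∏ i, (Polynomial.X - Polynomial.C (Γ i))).map cA := by
      rw [Polynomial.map_prod]
      exact Finset.prod_congr rfl fun i _ => by simp [hγ]
    simp only [hxs, hs, ht']
    rw [h1, h2, map_zero, map_zero, mul_zero, add_zero, hξa, h3, Polynomial.coeff_map]
  have hγalg : ∀ i, IsAlgebraic K₀ (ψ (PowerSeries.C (γ i))) :=
    g1q_alg (ψ.comp (PowerSeries.C)) K₀ γ fun j => by
      rw [RingHom.comp_apply, ← hxsj j, ← hg₁X]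
      exact hmem _
  obtain ⟨hGalg, hWalg, hHalg, hHalg'⟩ := halg ψ hψ K₀ hTmem hγalg hfmem hrelmem hrelmem0
  obtain ⟨hGalg₂, hWalg₂, hHalg₂, hHalg₂'⟩ :=
    halg₂ ψ hψ K₀ hTmem hγalg hfmem hrelmem hrelmem0
  have hac : ∀ {y : S₁}, IsAlgebraic K₀ y → y ∈ algebraicClosure (FFV E (N + 2) 2 m ds) S₁ :=
    fun h => mem_algebraicClosure_iff.2 (PC.alg_of_fieldRange h)
  set G' : Fin 2 → MonV (N + 2) (1 + 2 * mm) → algebraicClosure (FFV E (N + 2) 2 m ds) S₁ :=
    fun i q => ⟨ψ (G i q), hac (hGalg i q)⟩ with hG'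
  set W' : MonV (N + 2) (1 * (1 + 2 * mm)) → algebraicClosure (FFV E (N + 2) 2 m ds) S₁ :=
    fun q => ⟨ψ (W q), hac (hWalg q)⟩ with hW'
  set HC : MonV (N + 2) (2 * (1 + 2 * mm)) → algebraicClosure (FFV E (N + 2) 2 m ds) S₁ :=
    fun q => ⟨ψ (H q), hac (hHalg q)⟩ with hHC
  set HC' : Fin t ⊕ U → MonV (N + 2) (2 * (1 + 2 * mm)) →
      algebraicClosure (FFV E (N + 2) 2 m ds) S₁ :=
    fun u q => ⟨ψ (H' u q), hac (hHalg' u q)⟩ with hHC'
  set G₂' : Fin 2 → MonV (N + 2) (1 + 2 * mm) → algebraicClosure (FFV E (N + 2) 2 m ds) S₁ :=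
    fun i q => ⟨ψ (G₂ i q), hac (hGalg₂ i q)⟩ with hG₂'
  set W₂' : MonV (N + 2) (1 * (1 + 2 * mm)) → algebraicClosure (FFV E (N + 2) 2 m ds) S₁ :=
    fun q => ⟨ψ (W₂ q), hac (hWalg₂ q)⟩ with hW₂'
  set HC₂ : MonV (N + 2) (2 * (1 + 2 * mm)) → algebraicClosure (FFV E (N + 2) 2 m ds) S₁ :=
    fun q => ⟨ψ (H₂ q), hac (hHalg₂ q)⟩ with hHC₂
  set HC₂' : Fin t ⊕ U → MonV (N + 2) (2 * (1 + 2 * mm)) →
      algebraicClosure (FFV E (N + 2) 2 m ds) S₁ :=
    fun u q => ⟨ψ (H₂' u q), hac (hHalg₂' u q)⟩ with hHC₂'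
  -- the certificates
  obtain ⟨M₁, hM₀, hnM₁, hM₁, hfin₁, hcop₁, D₁, D₁', D₁'', c₁', hDc₁⟩ := exists_cert hp hd0 hT'0
    hγinj hγ1 hf0 hNoe' hG0 ψ hψ (algebraMap (algebraicClosure (FFV E (N + 2) 2 m ds) S₁) S₁)
    (fK := fun a => algebraMap (FFV E (N + 2) 2 m ds)
      (algebraicClosure (FFV E (N + 2) 2 m ds) S₁) (fF w a))
    (relK := fun u a => algebraMap (FFV E (N + 2) 2 m ds)
      (algebraicClosure (FFV E (N + 2) 2 m ds) S₁) (relF w h u a)) (GK := G')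
    (fun a => hfgen a) (fun u a => hrelgen u a) (fun i a => rfl) (2 * (1 + 2 * mm))
  obtain ⟨M₂, hM₁₂, hnM₂, hM₂, -, hcop₂, D₂, D₂', D₂'', c₂', hDc₂⟩ := hcert₂ ψ hψ
    (algebraMap (algebraicClosure (FFV E (N + 2) 2 m ds) S₁) S₁)
    (fK := fun a => algebraMap (FFV E (N + 2) 2 m ds)
      (algebraicClosure (FFV E (N + 2) 2 m ds) S₁) (fF w a))
    (relK := fun u a => algebraMap (FFV E (N + 2) 2 m ds)
      (algebraicClosure (FFV E (N + 2) 2 m ds) S₁) (relF w h u a)) (GK := G₂')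
    (fun a => hfgen a) (fun u a => hrelgen u a) (fun i a => rfl) M₁
  obtain ⟨D₁, D₁', D₁'', c₁', hDc₁⟩ := norm_mono_family hM₁₂ ⟨D₁, D₁', D₁'', c₁', hDc₁⟩
  obtain ⟨HM, hHM⟩ := exists_pad (hM₀.trans hM₁₂) HC
  have h₂ : ∀ u, ∃ g' : MonV (N + 2) M₂ → algebraicClosure (FFV E (N + 2) 2 m ds) S₁,
      pol g' = pol (HC' u) := fun u => exists_pad (hM₀.trans hM₁₂) (HC' u)
  choose HM' hHM' using h₂
  obtain ⟨HM₂, hHM₂⟩ := exists_pad (hM₀.trans hM₁₂) HC₂
  have h₂' : ∀ u, ∃ g' : MonV (N + 2) M₂ → algebraicClosure (FFV E (N + 2) 2 m ds) S₁,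
      pol g' = pol (HC₂' u) := fun u => exists_pad (hM₀.trans hM₁₂) (HC₂' u)
  choose HM₂' hHM₂' using h₂'
  -- the automorphisms fix the field of constants
  have hfix : ∀ (σA : A ≃+* A) (σS : S₁ ≃+* S₁), (∀ l, σA (lA l) = lA l) →
      (∀ i, σA (s i) = s i) → (∀ i, σA (t' i) = t' i) →
      (∀ z, σS (ψ z) = ψ (PowerSeries.map (σA : A →+* A) z)) →
      (∀ P, PowerSeries.map (σA : A →+* A) (g₁ P) = g₁ P) ∧
      ∀ y : FFV E (N + 2) 2 m ds, σS (algebraMap _ S₁ y) = algebraMap _ S₁ y := by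
    intro σA σS h1 h2 h3 h4
    have h5 : ∀ P, PowerSeries.map (σA : A →+* A) (g₁ P) = g₁ P := by
      intro P
      have h6 : (PowerSeries.map (σA : A →+* A)).comp g₁ = g₁ := by
        apply MvPolynomial.ringHom_ext
        · intro b
          rw [RingHom.comp_apply, hg₁C, PowerSeries.map_C]
          congr 1
          exact h1 _
        · intro i
          rw [RingHom.comp_apply, hg₁X]
          simp only [hxs]
          rw [map_add, map_mul, PowerSeries.map_C, PowerSeries.map_C, PowerSeries.map_X]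
          have h7 : (σA : A →+* A) (s i) = s i := h2 i
          have h8 : (σA : A →+* A) (t' i) = t' i := h3 i
          rw [h7, h8]
      exact DFunLike.congr_fun h6 P
    refine ⟨h5, fun y => ?_⟩
    have h6 : (σS : S₁ →+* S₁).comp (algebraMap (FFV E (N + 2) 2 m ds) S₁) =
        algebraMap (FFV E (N + 2) 2 m ds) S₁ := by
      apply ffv_ext
      · intro b
        rw [RingHom.comp_apply, hmapC, ← hg₁C]
        change σS _ = _
        rw [h4, h5]
      · intro i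
        rw [RingHom.comp_apply, hmapX, ← hg₁X]
        change σS _ = _
        rw [h4, h5]
    exact DFunLike.congr_fun h6 y
  have hfg₁ : ∀ q, f q = g₁ (∑ e, X (Sum.inl q, e) * C (w e)) := by
    intro q
    rw [map_sum, hf]
    refine Finset.sum_congr rfl fun e _ => ?_
    rw [map_mul, hg₁C, hg₁X]
  have hrelg₁ : ∀ u q, ∃ P, rel u q = g₁ P := by
    rintro (s' | u) q
    · refine ⟨∑ e, X (Sum.inr ⟨s', q⟩, e) * C (w e), ?_⟩
      change ∑ e, xs (Sum.inr ⟨s', q⟩, e) * PowerSeries.C (v e) = _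
      rw [map_sum]
      refine Finset.sum_congr rfl fun e _ => ?_
      rw [map_mul, hg₁C, hg₁X]
    · exact ⟨C (h u q), (hg₁C _).symm⟩
  obtain ⟨hτ1, hτ2⟩ := hfix τA τS hτl (fun i => hτc _) (fun i => hτc _) hτS
  have hτf : ∀ q, PowerSeries.map (τA : A →+* A) (f q) = f q := fun q => by rw [hfg₁, hτ1]
  have hτrel : ∀ u q, PowerSeries.map (τA : A →+* A) (rel u q) = rel u q := fun u q => by
    obtain ⟨P, hP⟩ := hrelg₁ u q
    rw [hP, hτ1]
  have hτG := hequi τA 1 (hτl _) (fun i => hτc _) hτf hτrel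
  have hτG₂ := hequi₂ τA hτf hτrel
  -- the transposition
  obtain ⟨ρ₁, hρκ, hρΓ, hρx⟩ := hperm (Equiv.swap 0 1)
  obtain ⟨ρA, ρS, hρc, hρl, hρS, hcomm⟩ := hρ ρ₁ hρκ
  have hρξ : ∀ j, ρ₁ (ξ (idx0 N m ds j)) = ξ (idx0 N m ds j) := by
    intro j'
    rw [hξa]
    have h1 : (∏ i, (Polynomial.X - Polynomial.C (Γ i))).map (ρ₁ : κ₁ →+* κ₁) =
        ∏ i, (Polynomial.X - Polynomial.C (Γ i)) := by
      rw [Polynomial.map_prod]
      have h2 : ∀ i', (Polynomial.X - Polynomial.C (Γ i')).map (ρ₁ : κ₁ →+* κ₁) =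
          Polynomial.X - Polynomial.C (Γ (Equiv.swap 0 1 i')) := by
        intro i'
        rw [Polynomial.map_sub, Polynomial.map_X, Polynomial.map_C, ← hρΓ]
        rfl
      simp only [h2]
      exact Equiv.prod_comp (Equiv.swap 0 1) fun i => (Polynomial.X - Polynomial.C (Γ i))
    conv_rhs => rw [← h1]
    rw [Polynomial.coeff_map]
    rfl
  have hρs : ∀ i, ρA (s i) = s i := by
    intro i'
    rw [hs]
    simp only
    rw [hρc]
    congr 1
    unfold ser0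
    split_ifs with h
    · obtain ⟨j', rfl⟩ := h
      exact hρξ j'
    · exact hρκ _
  have hρt : ∀ i, ρA (t' i) = t' i := by
    intro i'
    rw [ht']
    simp only
    rw [hρc]
    congr 1
    unfold ser1
    split_ifs with h
    · exact map_zero _
    · exact hρx _
  obtain ⟨hρ1, hρ2⟩ := hfix ρA ρS hρl hρs hρt hρS
  have hρf : ∀ q, PowerSeries.map (ρA : A →+* A) (f q) = f q := fun q => by rw [hfg₁, hρ1]
  have hρrel : ∀ u q, PowerSeries.map (ρA : A →+* A) (rel u q) = rel u q := fun u q => by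
    obtain ⟨P, hP⟩ := hrelg₁ u q
    rw [hP, hρ1]
  have hρG := hequi ρA (Equiv.swap 0 1) (hρl _) (fun i' => by
      rw [hγ]
      simp only
      rw [hρc, hρΓ]) hρf hρrel
  have hρG₂ := hequi₂ ρA hρf hρrel
  refine ⟨S₁, iFS, iAlg, 1 + 2 * mm, M₂, ![G' 0, G' 1, G₂' 0, G₂' 1], W', W₂', HM, HM₂, HM', HM₂',
    ![D₁ 0, D₁ 1, D₂ 0, D₂ 1], ![D₁' 0, D₁' 1, D₂' 0, D₂' 1],
    ![D₁'' 0, D₁'' 1, D₂'' 0, D₂'' 1], ![c₁' 0, c₁' 1, c₂' 0, c₂' 1], τS, ρS, Q, hnM₂, hM₂,
    hScl, ?_, ?_, (hfin₁.mono hM₁ hM₁₂).descend, (hcop₁ 0 1 (by decide)).mono hnM₁ hM₁₂, hcop₂,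
    forall_four (hDc₁ 0) (hDc₁ 1) (hDc₂ 0) (hDc₂ 1), hτ2, ?_, ?_, hQalg, ?_, ?_, ?_, hρ2, ?_, ?_,
    hcomm⟩
  · -- the first identity
    change pol (G' 0) * pol (G' 1) = _
    have e1 : algebraMap (algebraicClosure (FFV E (N + 2) 2 m ds) S₁) S₁
        (algebraMap (FFV E (N + 2) 2 m ds) (algebraicClosure (FFV E (N + 2) 2 m ds) S₁)
          (cF (N + 2) 2 m ds T)) = ψ (PowerSeries.C T') := by
      rw [← hφT']
      exact hmapC _
    exact g1q_id1 ψ (algebraMap (algebraicClosure (FFV E (N + 2) 2 m ds) S₁) S₁)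
      (G := G) (W := W) (H := H) (H' := H') (G₀ := G' 0) (G₁ := G' 1) (W₁ := W') (HC := HC) (HC' := HC')
      (algebraMap (algebraicClosure (FFV E (N + 2) 2 m ds) S₁) S₁).injective hGW (fun _ => rfl)
      (fun _ => rfl) (fun _ => rfl) e1 hfgen hrelgen (fun _ => rfl) (fun _ _ => rfl) hHM hHM'
  · -- the second identity
    change pol (G₂' 0) * pol (G₂' 1) = _
    exact g1q_id2 ψ (algebraMap (algebraicClosure (FFV E (N + 2) 2 m ds) S₁) S₁)
      (G := G₂) (W := W₂) (H := H₂) (H' := H₂') (G₀ := G₂' 0) (G₁ := G₂' 1) (W₁ := W₂') (HC := HC₂)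
      (HC' := HC₂') (algebraMap (algebraicClosure (FFV E (N + 2) 2 m ds) S₁) S₁).injective hGW₂
      (fun _ => rfl) (fun _ => rfl) (fun _ => rfl) hfgen hrelgen (fun _ => rfl) (fun _ _ => rfl)
      hHM₂ hHM₂'
  · intro y
    rw [hmapC]
    have h1 : PowerSeries.C (φA (algebraMap κ E y)) =
        PowerSeries.map cA (PowerSeries.C (algebraMap κ κ₁ y)) := by
      rw [PowerSeries.map_C, ← hlc, hφA, RingHom.comp_apply, hφc]
    rw [h1]
    exact hQ _
  · intro i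
    rw [hmapX]
    have h1 : xs i = PowerSeries.map cA (PowerSeries.C (ser0 g0 ξ i) +
        PowerSeries.X * PowerSeries.C (ser1 x i)) := by
      rw [map_add, map_mul, PowerSeries.map_C, PowerSeries.map_C, PowerSeries.map_X]
    rw [h1]
    exact hQ _
  · -- `τ` fixes the `G i`
    have hG1 : ∀ (i : Fin 2) (a : MonV (N + 2) (1 + 2 * mm)), τS (ψ (G i a)) = ψ (G i a) := by
      intro i a
      rw [hτS, hτG.1]
      rfl
    have hG2 : ∀ (i : Fin 2) (a : MonV (N + 2) (1 + 2 * mm)), τS (ψ (G₂ i a)) = ψ (G₂ i a) := by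
      intro i a
      rw [hτS, hτG₂.1]
    exact forall_four (hG1 0) (hG1 1) (hG2 0) (hG2 1)
  · intro a
    change τS (ψ (W a)) = ψ (W a)
    rw [hτS, hτG.2.1]
  · intro α hα h'
    rw [hmapC, hφT', ← hα₀, map_pow, map_pow] at hα
    have hα₀0 : α₀ ≠ 0 := by
      rintro rfl
      rw [zero_pow hp.ne_zero] at hα₀
      exact hT'0 hα₀.symm
    set β := ψ (PowerSeries.C α₀) with hβ
    have hβ0 : β ≠ 0 := by
      rw [hβ]
      intro h1
      apply hα₀0
      have h2 := hψ (h1.trans (map_zero ψ).symm)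
      exact PowerSeries.C_injective (h2.trans (map_zero _).symm)
    have hζ : (α / β) ^ 2 = 1 := by
      rw [div_pow, hα, div_self (pow_ne_zero _ hβ0)]
    have hζQ : τS (α / β) = α / β := by
      apply hQalg
      refine ⟨Polynomial.X ^ 2 - 1, ?_, ?_⟩
      · exact Polynomial.X_pow_sub_C_ne_zero hp.pos 1
      · rw [map_sub, map_pow, Polynomial.aeval_X, hζ, map_one, sub_self]
    have hζ0 : α / β ≠ 0 := by
      intro h1
      rw [h1, zero_pow hp.ne_zero] at hζ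
      exact zero_ne_one hζ
    have h1 : τS β = β := by
      have h2 : τS α = τS (α / β) * τS β := by
        rw [← map_mul, div_mul_cancel₀ _ hβ0]
      rw [hζQ, h'] at h2
      have h3 : α / β * β = α / β * τS β := by
        rw [← h2, div_mul_cancel₀ _ hβ0]
      exact (mul_left_cancel₀ hζ0 h3).symm
    rw [hβ, hτS, PowerSeries.map_C] at h1
    exact hτα (PowerSeries.C_injective (hψ h1))
  · intro a
    change ρS (ψ (G 0 a)) = ψ (G 1 a)
    rw [hρS, hρG.1, Equiv.swap_apply_left]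
  · intro a
    change ρS (ψ (G₂ 0 a)) = ψ (G₂ 0 a)
    rw [hρS, hρG₂.1]

end Pool.Agent.TQ
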