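import Pool.Agent.Helper37.BT.Fin
import Pool.Agent.Helper13.TQ.N7

/-!
# Project TQ: the final assembly
-/

universe u v

namespace Pool.Agent.TQ

open MvPolynomial Pool.Agent.PL Pool.Agent.BT Pool.Agent.Helper91.Sect

/-- two quadrics, `p = 2` -/
theorem thin_stepQ {F k : Type u} [Field F] [CharZero F] [Field k] [Algebra F k]
    (hF : ∃ S : Finset F, Subfield.closure (S : Set F) = ⊤)
    (hk : ∃ S : Finset k, Subfield.closure (S : Set k) = ⊤)
    {m : ℕ} {w : Fin (m + 1) → k} {i j : Fin (m + 1)} (hT : Transcendental F (w i / w j))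
    {N t : ℕ} (ht : t ≤ N) {d : Fin (t + 1) → ℕ} {s₀ s₁ : Fin (t + 1)} (hss : s₁ ≠ s₀)
    (hd₀ : d s₀ = 2) (hd₁ : d s₁ = 2) {U : Type} [Fintype U] {e : U → ℕ}
    (h : U → MvPolynomial (Fin (N + 3)) k)
    (hh : ∀ u, (h u).IsHomogeneous (e u)) (l : Fin (t + 3) → Fin (N + 3) → k)
    (hl : ∀ (L : Type u) [Field L] [Algebra k L] (P : Fin (N + 3) → L),
      (∀ i, ∑ j, algebraMap k L (l i j) * P j = 0) → (∀ u, aeval P (h u) = 0) → P = 0) :
    UL.IsThin {a : IxP (N + 2) d × Fin (m + 1) → F | HasSecP 2 (sysW w a) h} := by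
  classical
  have : CharZero k := charZero_of_injective_algebraMap (algebraMap F k).injective
  obtain ⟨g, c, hg, hc, hcert⟩ := exists_coord ht h hh l hl
  obtain ⟨g0, hg0⟩ := exists_g0 k (fun s => d (s₀.succAbove s))
    (fun s : Fin t => ((Fin.natAdd 2 (Fin.castLE ht s)).cast (by omega) : Fin (N + 2)))
  obtain ⟨c', hNoe⟩ := noe_of_cert ht hc (h := fun u => dehom (e u) (chg g (h u))) hcert hg0
  obtain ⟨s', hs'⟩ := Fin.exists_succAbove_eq hss
  have hA1 : ∀ D : ℕ, D = 2 → UL.IsThin {a : IxV (N + 2) D (fun s => d (s₀.succAbove s)) ×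
      Fin (m + 1) → F | HasSecV 2 (mainS (sysW w a))
        (relS (othS (sysW w a)) fun u => dehom (e u) (chg g (h u)))} := by
    rintro _ rfl
    exact thin_curvesQ hF hk hT ht (ds := fun s => d (s₀.succAbove s)) (s₀ := s')
      (by rw [hs', hd₁]) ⟨c, hc, hcert⟩
  have hwj : w j ≠ 0 := by
    intro h0
    rw [h0, div_zero] at hT
    exact hT isAlgebraic_zero
  obtain ⟨M, hM, hA2⟩ := thin_finG (F := F) (d := d s₀) hNoe hwj
  have h1 := UL.IsThin.comapLin (E := Fin (m + 1)) (trE F (N + 2) d s₀ hg)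
    ((hA1 (d s₀) hd₀).union hA2)
  refine UL.IsThin.mono h1 fun a ha => ?_
  have h2 : trA k (N + 2) d s₀ g (sysW w a) = sysW w
      (fun q : IxV (N + 2) (d s₀) (fun s => d (s₀.succAbove s)) × Fin (m + 1) =>
        trE F (N + 2) d s₀ hg (fun i => a (i, q.2)) q.1) := trA_sysW w a g
  by_cases hfin : FinG (mainS (trA k (N + 2) d s₀ g (sysW w a)))
      (relS (othS (trA k (N + 2) d s₀ g (sysW w a))) fun u => dehom (e u) (chg g (h u))) M
  · left
    have h3 := hasSecV_of_hasSecP hh hg hM hfin ha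
    rw [h2] at h3
    exact h3
  · right
    rw [h2] at hfin
    exact hfin

/-- **Linear systems of complete intersections in a fixed projective variety.** -/
theorem bertiniQ {F k : Type u} [Field F] [CharZero F] [Field k] [Algebra F k]
    (hF : ∃ S : Finset F, Subfield.closure (S : Set F) = ⊤)
    (hk : ∃ S : Finset k, Subfield.closure (S : Set k) = ⊤)
    {m : ℕ} {w : Fin (m + 1) → k} {i j : Fin (m + 1)} (hT : Transcendental F (w i / w j))
    {M t : ℕ} (ht : t + 1 ≤ M) {d : Fin t → ℕ} {U : Type} [Fintype U] {e : U → ℕ}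
    (h : U → MvPolynomial (Fin (M + 1)) k) (hh : ∀ u, (h u).IsHomogeneous (e u))
    (l : Fin (t + 2) → Fin (M + 1) → k)
    (hl : ∀ (L : Type u) [Field L] [Algebra k L] (P : Fin (M + 1) → L),
      (∀ i, ∑ j, algebraMap k L (l i j) * P j = 0) → (∀ u, aeval P (h u) = 0) → P = 0) :
    UL.IsThin {a : IxP M d × Fin (m + 1) → F |
      ∃ p : ℕ, p.Prime ∧ 3 ≤ ∑ s, (if p ∣ d s then d s else 0) ∧ HasSecP p (sysW w a) h} := by
  classical
  have hA := bertini (d := d) hF hk hT ht h hh l hl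
  have hB : UL.IsThin {a : IxP M d × Fin (m + 1) → F |
      ∃ s₀ s₁, s₁ ≠ s₀ ∧ d s₀ = 2 ∧ d s₁ = 2 ∧ HasSecP 2 (sysW w a) h} := by
    rcases t with _ | t
    · refine UL.IsThin.mono UL.IsThin.empty fun a ha => ?_
      obtain ⟨s, -⟩ := ha
      exact s.elim0
    obtain ⟨N, rfl⟩ : ∃ N, M = N + 2 := ⟨M - 2, by omega⟩
    have h1 := UL.IsThin.biUnion (F := F) (Finset.univ : Finset (Fin (t + 1) × Fin (t + 1)))
      (A := fun s => {a : IxP (N + 2) d × Fin (m + 1) → F |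
        s.2 ≠ s.1 ∧ d s.1 = 2 ∧ d s.2 = 2 ∧ HasSecP 2 (sysW w a) h}) (by
      rintro ⟨s₀, s₁⟩ -
      by_cases hs : s₁ ≠ s₀ ∧ d s₀ = 2 ∧ d s₁ = 2
      · exact UL.IsThin.mono (thin_stepQ hF hk hT (by omega) hs.1 hs.2.1 hs.2.2 h hh l hl)
          fun a ha => ha.2.2.2
      · refine UL.IsThin.mono UL.IsThin.empty fun a ha => ?_
        exact absurd ⟨ha.1, ha.2.1, ha.2.2.1⟩ hs)
    refine UL.IsThin.mono h1 fun a ha => ?_
    obtain ⟨s₀, s₁, hs⟩ := ha
    simp only [Set.mem_iUnion]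
    exact ⟨(s₀, s₁), Finset.mem_univ _, hs⟩
  refine UL.IsThin.mono (hA.union hB) fun a ha => ?_
  obtain ⟨p, hp, hsum, ha⟩ := ha
  by_cases hs : ∃ s, p ∣ d s ∧ 3 ≤ d s
  · obtain ⟨s, hps, hs⟩ := hs
    exact Or.inl ⟨s, hs, p, hp, hps, ha⟩
  · right
    push Not at hs
    have h2 : ∀ s, p ∣ d s → d s = 0 ∨ (p = 2 ∧ d s = 2) := by
      intro s hps
      have h3 := hs s hps
      rcases Nat.eq_zero_or_pos (d s) with h0 | h0
      · exact Or.inl h0
      · have h4 := Nat.le_of_dvd h0 hps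
        have h5 := hp.two_le
        exact Or.inr ⟨by omega, by omega⟩
    -- two of the degrees are equal to two
    obtain ⟨s₀, hs₀⟩ : ∃ s, (if p ∣ d s then d s else 0) ≠ 0 := by
      by_contra h0
      push Not at h0
      rw [Finset.sum_eq_zero fun s _ => h0 s] at hsum
      omega
    obtain ⟨s₁, hs₁, hne⟩ : ∃ s, (if p ∣ d s then d s else 0) ≠ 0 ∧ s ≠ s₀ := by
      by_contra h0
      push Not at h0
      rw [Finset.sum_eq_single s₀ (fun s _ hs => by
        by_contra h3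
        exact hs (h0 s h3)) (fun h3 => absurd (Finset.mem_univ _) h3)] at hsum
      by_cases h3 : p ∣ d s₀
      · rw [if_pos h3] at hsum
        rcases h2 s₀ h3 with h4 | h4 <;> omega
      · rw [if_neg h3] at hsum
        omega
    have h6 : ∀ s, (if p ∣ d s then d s else 0) ≠ 0 → p = 2 ∧ d s = 2 := by
      intro s h7
      by_cases h8 : p ∣ d s
      · rw [if_pos h8] at h7
        exact (h2 s h8).resolve_left h7
      · rw [if_neg h8] at h7
        exact absurd rfl h7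
    obtain ⟨hp2, h7⟩ := h6 s₀ hs₀
    obtain ⟨-, h8⟩ := h6 s₁ hs₁
    rw [hp2] at ha
    exact ⟨s₀, s₁, hne, h7, h8, ha⟩

end Pool.Agent.TQ
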